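import Pool.Agent.H.MP_096ca0_lc.A

set_option autoImplicit false

open Cardinal Ordinal Set Filter Pool.Agent.H.MP_096ca0_lc

namespace Pool.Agent.Results.MP_096ca0_lc.No

/-- Laver-like Namba forcing, ordered by inclusion -/
abbrev Nm : Type := {p : Set (List K) // ∃ s, Stem p s}

/-- height of a node of a tree -/
noncomputable def ht {T : Type} [PartialOrder T] [WellFoundedLT T] (t : T) : Ordinal.{0} :=
  IsWellFounded.rank (· < ·) t

/-- q forces that t belongs to the set named by b -/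
def F {T : Type} (b : Set (Nm × T)) (q : Nm) (t : T) : Prop :=
  ∀ r ≤ q, ∃ s ≤ r, ∃ x, s ≤ x ∧ (x, t) ∈ b

/-- p forces that b names a cofinal branch that is not in the ground model -/
structure NewBranch {T : Type} [PartialOrder T] [WellFoundedLT T] (b : Set (Nm × T)) (p : Nm) :
    Prop where
  chain : ∀ q ≤ p, ∀ s t, F b q s → F b q t → s ≤ t ∨ t ≤ s
  down : ∀ q ≤ p, ∀ s t, s ≤ t → F b q t → F b q s
  cof : ∀ α < ω₁, ∀ q ≤ p, ∃ r ≤ q, ∃ t, ht t = α ∧ F b r t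
  new : ∀ B : Set T, ∀ q ≤ p, ∃ r ≤ q, ∃ t, (t ∉ B ∧ F b r t) ∨ (t ∈ B ∧ ∀ s ≤ r, ¬ F b s t)

/-- forget the stem -/
def c (w : Pos) : Nm := ⟨w.1.1, _, w.2⟩

lemma ex (q : Nm) : ∃ w, c w = q := ⟨⟨(q.1, _), q.2.choose_spec⟩, rfl⟩

variable {T : Type} {b : Set (Nm × T)}

lemma mo {q r : Nm} {t : T} (h : F b q t) (e : r ≤ q) : F b r t := fun s a => h s (a.trans e)

lemma am {w : Pos} {t : T} (h : ∃ᶠ a in Lf, ∃ v, SE w a v ∧ F b (c v) t) :
    ∃ r, PE w r ∧ F b (c r) t := by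
  obtain ⟨r, r1, r2⟩ := fu {v | v = w ∨ F b (c v) t} (by
    rintro v (rfl | e)
    · exact h.mono fun a ⟨x, y, z⟩ => ⟨x, .inr z, y⟩
    · exact (se v).mono fun a ⟨x, y⟩ => ⟨x, .inr (mo e y.2), y⟩) (.inl rfl)
  refine ⟨r, r1, fun q e => ?_⟩
  obtain ⟨q, rfl⟩ := ex q
  obtain ⟨v, v1, v2⟩ := lg q (w.1.2.length + 1)
  obtain ⟨x, rfl | x1, x2⟩ := r2 v (v1.trans e)
  · rw [x2.1] at v2; omega
  · obtain ⟨s, s1, s2⟩ := x1 (c v) x2.2
    exact ⟨s, s1.trans v1, s2⟩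

variable [PartialOrder T] [WellFoundedLT T] {p : Nm}

lemma eq {s t : T} (h : s ≤ t) (e : ht t ≤ ht s) : s = t :=
  h.eq_or_lt.resolve_right fun k => (IsWellFounded.rank_lt_of_rel k).not_ge e

lemma sp (hT : #T < ℵ_ 2) (hh : ∀ t : T, ht t < ω₁) (h : NewBranch b p) {w : Pos} (hw : c w ≤ p) :
    ∃ (r : Bool → Pos) (t : Bool → T), (∀ i, PE w (r i) ∧ F b (c (r i)) (t i)) ∧
      ¬ (t true ≤ t false ∨ t false ≤ t true) := by
  by_contra! k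
  obtain ⟨r, r1, r2⟩ := fu {v | ∀ t, (∃ x, PE v x ∧ F b (c x) t) → ∃ x, PE w x ∧ F b (c x) t}
    (fun v e => ((se v).and_eventually (ev hT (p := fun a t => (∃ x, SE v a x ∧ F b (c x) t) →
      ∃ x, PE v x ∧ F b (c x) t) fun t => by
        by_contra f
        have g := not_eventually.1 f
        exact g.exists.choose_spec fun _ => am (g.mono fun a i => (Classical.not_imp.1 i).1))).mono
          fun a ⟨⟨x, i⟩, j⟩ => ⟨x, fun t ⟨y, m, n⟩ => e t (j t ⟨y, ⟨m.1.trans i.1,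
            m.2.trans i.2⟩, n⟩), i⟩) (w := w) fun _ => id
  have f : ∀ q ≤ c r, ∀ t, F b q t → ∃ x, PE w x ∧ F b (c x) t := fun q e t a => by
    obtain ⟨q, rfl⟩ := ex q
    obtain ⟨x, x1, x2⟩ := r2 q e
    exact x1 t ⟨q, x2, a⟩
  obtain ⟨q, q1, t, ⟨a, d⟩ | ⟨⟨x, a⟩, d⟩⟩ := h.new {t | ∃ x, PE w x ∧ F b (c x) t} (c r)
    (le_trans r1.2 hw)
  · exact a (f q q1 t d)
  · obtain ⟨s, s1, u, u1, u2⟩ := h.cof _ (hh t) q (q1.trans (le_trans r1.2 hw))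
    obtain ⟨y, e⟩ := f s (s1.trans q1) u u2
    refine d s s1 ((k (cond · x y) (cond · t u) (by rintro (_ | _); exacts [e, a])).elim
      (fun i => (eq i u1.le : t = u) ▸ u2) fun i => (eq i u1.ge : u = t) ▸ u2)

theorem result (T : Type) [PartialOrder T] [WellFoundedLT T]
    (tree : ∀ t : T, IsChain (· ≤ ·) (Iio t)) (hh : ∀ t : T, ht t < ω₁)
    (lev : ∀ α, {t : T | ht t = α}.Countable) (b : Set (Nm × T)) (p : Nm) : ¬ NewBranch b p := by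
  intro h
  have hT : #T < ℵ_ 2 := by
    have : (⋃ a : (ω₁ : Ordinal.{0}).ToType, {t : T | ht t = ToType.mk.symm a}) = Set.univ :=
      eq_univ_of_forall fun t => mem_iUnion.2 ⟨ToType.mk ⟨ht t, hh t⟩, by simp⟩
    rw [← mk_univ, ← this]
    refine (mk_iUnion_le _).trans_lt (mul_lt_of_lt (by simp) (by simp)
      ((ciSup_le' fun a => (lev _).le_aleph0).trans_lt (by simp)))
  choose r t r1 r2 using fun w : {w : Pos // c w ≤ p} => sp hT hh h w.2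
  obtain ⟨p, rfl⟩ := ex p
  obtain ⟨u, W, w1, w2⟩ := game hT (fun u w => ∀ i, ht (t w i) ≤ ht u)
    (fun w i a v => SE (r w i) a v.1) (fun w i => (se _).mono fun a ⟨v, e⟩ =>
      ⟨⟨v, (e.2.trans (r1 w i).1.2).trans w.2⟩, e⟩) (fun s => by
        obtain ⟨-, -, u, e, -⟩ := h.cof _ (Ordinal.iSup_lt_omega_one fun x : List Bool × Bool =>
          hh (t (s x.1) x.2)) _ le_rfl
        exact ⟨u, fun l i => e ▸ Ordinal.le_iSup (fun x : List Bool × Bool => ht (t (s x.1) x.2))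
          (l, i)⟩) ⟨p, le_rfl⟩
  obtain ⟨e, he⟩ := (lev (ht u)).exists_eq_range ⟨u, rfl⟩
  obtain ⟨q, q1, q2⟩ := fu {v | ∃ k : c v ≤ c p, ⟨v, k⟩ ∈ W ∧ ∀ n < v.1.2.length - p.1.2.length,
      ∃ s, F b (c v) s ∧ ht s ≤ ht u ∧ ¬ s ≤ e n} (by
    rintro v ⟨k, v1, v2⟩
    obtain ⟨i, hi⟩ : ∃ i, ¬ t ⟨v, k⟩ i ≤ e (v.1.2.length - p.1.2.length) := by
      by_contra! g
      refine r2 ⟨v, k⟩ ((g true).eq_or_lt.elim (fun a => .inr (a ▸ g false)) fun a =>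
        (g false).eq_or_lt.elim (fun d => .inl (d ▸ g true)) fun d => (tree _).total a d)
    refine ((w2 _ v1).2 i).mono fun a ⟨x, x1, x2⟩ => ⟨x.1, ⟨x.2, x1, fun n hn => ?_⟩,
      x2.1.trans (by rw [(r1 _ i).1.1]), x2.2.trans (r1 _ i).1.2⟩
    rw [x2.1, (r1 _ i).1.1, List.length_append, List.length_singleton] at hn
    rcases lt_or_eq_of_le (show n ≤ v.1.2.length - p.1.2.length by dsimp only at hn; omega) with g | rfl
    · exact (v2 n g).imp fun s g => ⟨mo g.1 (x2.2.trans (r1 _ i).1.2), g.2⟩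
    · exact ⟨_, mo (r1 _ i).2 x2.2, (w2 _ v1).1 i, hi⟩) (w := p) ⟨le_rfl, w1, by simp⟩
  obtain ⟨s, s1, y, y1, y2⟩ := h.cof _ (hh u) (c q) q1.2
  obtain ⟨s, rfl⟩ := ex s
  obtain ⟨n, rfl⟩ := he.le y1
  obtain ⟨v, v1, v2⟩ := lg s (p.1.2.length + n + 1)
  obtain ⟨x, ⟨k, -, x1⟩, x2⟩ := q2 v (v1.trans s1)
  obtain ⟨z, z1, z2, z3⟩ := x1 n (by rw [← x2.1]; omega)
  exact (h.chain (c v) (le_trans x2.2 k) z _ (mo z1 x2.2) (mo y2 v1)).elim z3
    fun a => z3 (eq a (z2.trans y1.ge)).ge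

end Pool.Agent.Results.MP_096ca0_lc.No
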